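import Pool.Agent.H104.MZ.Stm

/-! Project MZ: MOM2, vanishing moments give divisibility. -/

set_option autoImplicit false

open Polynomial Finset

namespace Pool.Agent.Q211.MZ

open Pool.Agent.H104.MZ

theorem t_MOM2 : S_MOM2 := by
  intro L d N hN h
  have h1 : (X - 1 : ℤ[X]) = X - C 1 := by rw [C_1]
  rw [h1, X_sub_C_pow_dvd_iff, X_pow_dvd_iff]
  intro k hk
  rw [← taylor_apply, taylor_coeff, hasseDeriv_apply, Polynomial.sum_over_range' _ _ N hN,
    eval_finsetSum]
  · rw [← h k hk]
    refine Finset.sum_congr rfl fun i _ => ?_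
    rw [eval_monomial, one_pow, mul_one, mul_comm]
  · intro n
    rw [mul_zero, monomial_zero_right]

end Pool.Agent.Q211.MZ
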